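import Mathlib

section

set_option autoImplicit false

namespace Pool.Agent.Lib.PNT

open MeasureTheory Filter Topology Set

/-- the triangle function -/
noncomputable def tri (t : ℝ) : ℝ := max 0 (1 - |t|)

lemma continuous_tri : Continuous tri := by
  unfold tri
  fun_prop

lemma tri_nonneg (t : ℝ) : 0 ≤ tri t := le_max_left _ _

lemma tri_le_one (t : ℝ) : tri t ≤ 1 := by
  unfold tri
  have := abs_nonneg t
  simp only [sup_le_iff]
  constructor
  · norm_num
  · linarith

lemma tri_eq_zero {t : ℝ} (ht : 1 ≤ |t|) : tri t = 0 := by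
  unfold tri
  rw [max_eq_left]
  linarith

lemma hasCompactSupport_tri : HasCompactSupport tri := by
  refine HasCompactSupport.intro (K := Icc (-1) 1) isCompact_Icc ?_
  intro t ht
  apply tri_eq_zero
  by_contra h
  apply ht
  push Not at h
  rw [abs_lt] at h
  exact ⟨h.1.le, h.2.le⟩

lemma integrable_tri : Integrable tri :=
  continuous_tri.integrable_of_hasCompactSupport hasCompactSupport_tri

/-- the Fejer kernel -/
noncomputable def ker (u : ℝ) : ℝ := if u = 0 then 1 else 2 * (1 - Real.cos u) / u ^ 2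

lemma ker_nonneg (u : ℝ) : 0 ≤ ker u := by
  unfold ker
  split_ifs with h
  · norm_num
  · have := Real.cos_le_one u
    apply div_nonneg
    · linarith
    · positivity

lemma ker_le (u : ℝ) : ker u ≤ 8 * (1 + u ^ 2)⁻¹ := by
  have hpos : (0:ℝ) < 1 + u ^ 2 := by positivity
  rw [← div_eq_mul_inv, le_div_iff₀ hpos]
  unfold ker
  split_ifs with h
  · subst h
    norm_num
  · have h2 : 0 < u ^ 2 := by positivity
    rw [div_mul_eq_mul_div, div_le_iff₀ h2]
    have h1 := Real.one_sub_sq_div_two_le_cos (x := u)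
    have h3 := Real.neg_one_le_cos u
    by_cases h4 : u ^ 2 ≤ 1
    · nlinarith
    · push Not at h4
      nlinarith

lemma integral_unit {c : ℂ} (hc : c ≠ 0) :
    ∫ t in (0:ℝ)..1, ((1 - t : ℝ) : ℂ) * Complex.exp (c * t) = (Complex.exp c - 1 - c) / c ^ 2 := by
  have h : ∀ t ∈ Set.uIcc (0:ℝ) 1, HasDerivAt
      (fun t : ℝ => (1 - (t:ℂ)) * Complex.exp (c * t) / c + Complex.exp (c * t) / c ^ 2)
      (((1 - t : ℝ) : ℂ) * Complex.exp (c * t)) t := by
    intro t _
    have h1 : HasDerivAt (fun t : ℝ => (t:ℂ)) 1 t := Complex.ofRealCLM.hasDerivAt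
    have h2 : HasDerivAt (fun t : ℝ => Complex.exp (c * t)) (Complex.exp (c * t) * (c * 1)) t :=
      (h1.const_mul c).cexp
    have h3 : HasDerivAt (fun t : ℝ => (1 - (t:ℂ))) (0 - 1) t := (hasDerivAt_const t (1:ℂ)).sub h1
    have h4 := ((h3.mul h2).div_const c).add (h2.div_const (c ^ 2))
    refine HasDerivAt.congr_deriv h4 ?_
    push_cast
    field_simp
    ring
  rw [intervalIntegral.integral_eq_sub_of_hasDerivAt h]
  · push_cast
    simp only [sub_self, zero_mul, zero_div, mul_one, mul_zero, Complex.exp_zero, sub_zero]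
    have : c ^ 2 ≠ 0 := by positivity
    rw [eq_div_iff this]
    have : (1 / c) = c / c ^ 2 := by field_simp
    rw [this]
    field_simp
    ring
  · apply Continuous.intervalIntegrable
    fun_prop

lemma fourier_tri (u : ℝ) :
    ∫ t : ℝ, (tri t : ℂ) * Complex.exp (Complex.I * u * t) = (ker u : ℂ) := by
  have h0 : ∫ t : ℝ, (tri t : ℂ) * Complex.exp (Complex.I * u * t) =
      ∫ t in (-1:ℝ)..1, (tri t : ℂ) * Complex.exp (Complex.I * u * t) := by
    rw [intervalIntegral.integral_of_le (by norm_num)]
    symm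
    apply setIntegral_eq_integral_of_forall_compl_eq_zero
    intro t ht
    have : tri t = 0 := by
      apply tri_eq_zero
      by_contra h
      push Not at h
      rw [abs_lt] at h
      exact ht ⟨h.1, h.2.le⟩
    rw [this]
    simp
  have hcont : Continuous (fun t : ℝ => (tri t : ℂ) * Complex.exp (Complex.I * u * t)) := by
    have := continuous_tri
    fun_prop
  rw [h0, ← intervalIntegral.integral_add_adjacent_intervals (b := 0)
    (hcont.intervalIntegrable _ _) (hcont.intervalIntegrable _ _)]
  have h1 : ∫ t in (-1:ℝ)..0, (tri t : ℂ) * Complex.exp (Complex.I * u * t) =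
      ∫ t in (0:ℝ)..1, ((1 - t : ℝ) : ℂ) * Complex.exp ((-(Complex.I * u)) * t) := by
    have := intervalIntegral.integral_comp_neg (a := 0) (b := 1)
      (fun t : ℝ => (tri t : ℂ) * Complex.exp (Complex.I * u * t))
    rw [neg_zero] at this
    rw [← this]
    apply intervalIntegral.integral_congr
    intro t ht
    rw [Set.uIcc_of_le (by norm_num)] at ht
    have h2 : tri (-t) = 1 - t := by
      unfold tri
      rw [abs_neg, abs_of_nonneg ht.1, max_eq_right]
      linarith [ht.2]
    simp only [h2]
    congr 2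
    push_cast
    ring
  have h2 : ∫ t in (0:ℝ)..1, (tri t : ℂ) * Complex.exp (Complex.I * u * t) =
      ∫ t in (0:ℝ)..1, ((1 - t : ℝ) : ℂ) * Complex.exp ((Complex.I * u) * t) := by
    apply intervalIntegral.integral_congr
    intro t ht
    rw [Set.uIcc_of_le (by norm_num)] at ht
    have h2 : tri t = 1 - t := by
      unfold tri
      rw [abs_of_nonneg ht.1, max_eq_right]
      linarith [ht.2]
    simp only [h2]
  rw [h1, h2]
  by_cases hu : u = 0
  · subst hu
    have h3 : ∫ t in (0:ℝ)..1, ((1 - t : ℝ) : ℂ) = 1 / 2 := by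
      rw [intervalIntegral.integral_ofReal]
      have : ∫ t in (0:ℝ)..1, (1 - t : ℝ) = 1 / 2 := by
        rw [intervalIntegral.integral_sub (by simp) (by simp)]
        simp
        norm_num
      rw [this]
      push_cast
      ring
    simp only [Complex.ofReal_zero, mul_zero, neg_zero, zero_mul, Complex.exp_zero, mul_one]
    rw [h3]
    unfold ker
    simp
    norm_num
  · have hc : (Complex.I * u : ℂ) ≠ 0 := by
      simp [hu]
    rw [integral_unit hc, integral_unit (neg_ne_zero.mpr hc)]
    unfold ker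
    rw [if_neg hu]
    have h4 : (Complex.cos u : ℂ) = (Complex.exp (Complex.I * u) + Complex.exp (-(Complex.I * u))) / 2 := by
      rw [Complex.cos]
      congr 3 <;> ring
    push_cast
    rw [h4]
    have h5 : (Complex.I * (u:ℂ)) ^ 2 = - (u:ℂ) ^ 2 := by
      rw [mul_pow, Complex.I_sq]; ring
    have h6 : (-(Complex.I * (u:ℂ))) ^ 2 = - (u:ℂ) ^ 2 := by
      rw [neg_sq, h5]
    rw [h5, h6]
    have h7 : (u:ℂ) ≠ 0 := by exact_mod_cast hu
    field_simp
    ring

lemma fourier_tri_scale {T : ℝ} (hT : 0 < T) (u : ℝ) :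
    ∫ t : ℝ, (tri (t / T) : ℂ) * Complex.exp (Complex.I * u * t) = ((T * ker (T * u) : ℝ) : ℂ) := by
  have h := Measure.integral_comp_div
    (fun t : ℝ => (tri t : ℂ) * Complex.exp (Complex.I * (T * u : ℝ) * t)) T
  rw [fourier_tri, abs_of_pos hT] at h
  push_cast
  rw [Complex.real_smul] at h
  rw [← h]
  congr 1
  ext t
  congr 2
  push_cast
  have : (T:ℂ) ≠ 0 := by exact_mod_cast hT.ne'
  field_simp

lemma measurable_ker : Measurable ker := by
  unfold ker
  apply Measurable.ite (measurableSet_singleton 0) measurable_const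
  fun_prop

lemma integrable_ker : Integrable ker := by
  apply Integrable.mono' (g := fun u : ℝ => 8 * (1 + u ^ 2)⁻¹)
  · exact integrable_inv_one_add_sq.const_mul 8
  · exact measurable_ker.aestronglyMeasurable
  · apply Filter.Eventually.of_forall
    intro u
    rw [Real.norm_of_nonneg (ker_nonneg u)]
    exact ker_le u

lemma integral_ker_pos : 0 < ∫ u, ker u := by
  rw [integral_pos_iff_support_of_nonneg ker_nonneg integrable_ker]
  have : Ioo (0:ℝ) 1 ⊆ Function.support ker := by
    intro u hu
    rw [Function.mem_support]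
    unfold ker
    rw [if_neg hu.1.ne']
    have h1 : Real.cos u < 1 := by
      have := Real.cos_lt_cos_of_nonneg_of_le_pi (x := 0) (y := u) le_rfl
        (by linarith [hu.2, Real.pi_gt_three]) hu.1
      rwa [Real.cos_zero] at this
    have : 0 < u ^ 2 := by have := hu.1; positivity
    have h2 : 0 < 2 * (1 - Real.cos u) / u ^ 2 := by
      apply div_pos <;> linarith
    exact h2.ne'
  refine lt_of_lt_of_le ?_ (measure_mono this)
  simp

end Pool.Agent.Lib.PNT
end

section

set_option autoImplicit false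

namespace Pool.Agent.Lib.PNT

open MeasureTheory Filter Topology Set

lemma integrable_exp_neg {ε : ℝ} (hε : 0 < ε) :
    IntegrableOn (fun v : ℝ => Real.exp (-ε * v)) (Ioi 0) := by
  have := integrableOn_exp_mul_Ioi (a := -ε) (by linarith) 0
  exact this

lemma integrable_tri_scale {T : ℝ} (hT : 0 < T) : Integrable (fun t : ℝ => tri (t / T)) := by
  exact integrable_tri.comp_div hT.ne'

/-- The Fejer identity. -/
lemma fejer_identity {D : ℝ → ℝ} (hD : Measurable D) {C : ℝ} (hC : ∀ v, 0 < v → |D v| ≤ C)
    {ε T : ℝ} (hε : 0 < ε) (hT : 0 < T) (y : ℝ) :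
    ∫ v in Ioi (0:ℝ), ((D v * Real.exp (-ε * v) * (T * ker (T * (y - v))) : ℝ) : ℂ) =
      ∫ t : ℝ, (tri (t / T) : ℂ) * Complex.exp (Complex.I * t * y) *
        ∫ v in Ioi (0:ℝ), (D v : ℂ) * Complex.exp (-(ε + Complex.I * t) * v) := by
  have h1 : ∀ v : ℝ, ((D v * Real.exp (-ε * v) * (T * ker (T * (y - v))) : ℝ) : ℂ) =
      ∫ t : ℝ, ((D v * Real.exp (-ε * v) : ℝ) : ℂ) *
        ((tri (t / T) : ℂ) * Complex.exp (Complex.I * (y - v : ℝ) * t)) := by
    intro v
    rw [integral_const_mul, fourier_tri_scale hT]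
    push_cast
    ring
  simp_rw [h1]
  rw [integral_integral_swap]
  · congr 1
    ext t
    rw [← integral_const_mul]
    congr 1
    ext v
    have : Complex.exp (-(ε + Complex.I * t) * v) * Complex.exp (Complex.I * t * y) =
        Complex.exp (-ε * v) * Complex.exp (Complex.I * (y - v) * t) := by
      rw [← Complex.exp_add, ← Complex.exp_add]
      congr 1
      ring
    push_cast
    linear_combination (-(tri (t / T) : ℂ) * (D v : ℂ)) * this
  · have hg : Integrable (fun p : ℝ × ℝ => (C * Real.exp (-ε * p.1)) * tri (p.2 / T))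
        ((volume.restrict (Ioi (0:ℝ))).prod volume) :=
      Integrable.mul_prod ((integrable_exp_neg hε).const_mul C) (integrable_tri_scale hT)
    refine Integrable.mono' hg ?_ ?_
    · apply Measurable.aestronglyMeasurable
      have := continuous_tri.measurable
      unfold Function.uncurry
      fun_prop
    · have hae : ∀ᵐ p : ℝ × ℝ ∂((volume.restrict (Ioi (0:ℝ))).prod volume), 0 < p.1 := by
        have h2 : ∀ᵐ v : ℝ ∂(volume.restrict (Ioi (0:ℝ))), 0 < v :=
          ae_restrict_mem measurableSet_Ioi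
        exact Measure.quasiMeasurePreserving_fst.ae h2
      filter_upwards [hae] with p hp
      simp only [Function.uncurry]
      rw [norm_mul, norm_mul, Complex.norm_real, Complex.norm_real, Complex.norm_exp]
      have h3 : (Complex.I * ((y - p.1 : ℝ) : ℂ) * (p.2 : ℂ)).re = 0 := by
        simp
      rw [h3, Real.exp_zero, mul_one, norm_mul, Real.norm_eq_abs, Real.norm_eq_abs,
        Real.norm_of_nonneg (tri_nonneg _), abs_of_pos (Real.exp_pos _)]
      have := hC p.1 hp
      have h4 := tri_nonneg (p.2 / T)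
      have h5 := Real.exp_pos (-ε * p.1)
      gcongr

lemma integrable_ker_scale {T : ℝ} (hT : 0 < T) (y : ℝ) :
    Integrable (fun v : ℝ => T * ker (T * (y - v))) := by
  have h1 : Integrable (fun v : ℝ => ker (T * v)) := integrable_ker.comp_mul_left' hT.ne'
  have h2 := h1.comp_sub_left y
  exact h2.const_mul T

lemma integral_ker_scale {T : ℝ} (hT : 0 < T) (y : ℝ) :
    ∫ v : ℝ, T * ker (T * (y - v)) = ∫ u : ℝ, ker u := by
  rw [integral_const_mul, integral_sub_left_eq_self (fun v => ker (T * v)),
    Measure.integral_comp_mul_left, abs_of_pos (inv_pos.mpr hT), smul_eq_mul]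
  field_simp

lemma limit_identity {D : ℝ → ℝ} (hD : Measurable D) {C : ℝ} (hC : ∀ v, 0 < v → |D v| ≤ C)
    {H : ℂ → ℂ} (hH : ContinuousOn H {s | 1 ≤ s.re})
    (hDH : ∀ s : ℂ, 1 < s.re →
      ∫ v in Ioi (0:ℝ), (D v : ℂ) * Complex.exp (-(s - 1) * v) = H s)
    {T : ℝ} (hT : 0 < T) (y : ℝ) :
    ∫ v in Ioi (0:ℝ), ((D v * (T * ker (T * (y - v))) : ℝ) : ℂ) =
      ∫ t : ℝ, (tri (t / T) : ℂ) * Complex.exp (Complex.I * t * y) * H (1 + Complex.I * t) := by
  have hl : Tendsto (fun ε : ℝ => ∫ v in Ioi (0:ℝ),
      ((D v * Real.exp (-ε * v) * (T * ker (T * (y - v))) : ℝ) : ℂ)) (𝓝[>] 0)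
      (𝓝 (∫ v in Ioi (0:ℝ), ((D v * (T * ker (T * (y - v))) : ℝ) : ℂ))) := by
    apply tendsto_integral_filter_of_dominated_convergence
      (fun v : ℝ => C * (T * ker (T * (y - v))))
    · apply Filter.Eventually.of_forall
      intro ε
      apply Measurable.aestronglyMeasurable
      have := measurable_ker
      fun_prop
    · filter_upwards [self_mem_nhdsWithin] with ε hε
      filter_upwards [ae_restrict_mem measurableSet_Ioi] with v hv
      rw [Complex.norm_real, norm_mul, norm_mul, Real.norm_eq_abs, Real.norm_eq_abs,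
        abs_of_pos (Real.exp_pos _), Real.norm_of_nonneg (mul_nonneg hT.le (ker_nonneg _))]
      have h1 := hC v hv
      have h2 : Real.exp (-ε * v) ≤ 1 := by
        rw [Real.exp_le_one_iff]
        have : 0 < ε * v := mul_pos hε hv
        linarith
      have h3 := mul_nonneg hT.le (ker_nonneg (T * (y - v)))
      have h4 := abs_nonneg (D v)
      have h5 := Real.exp_pos (-ε * v)
      gcongr
      nlinarith
    · exact ((integrable_ker_scale hT y).const_mul C).integrableOn
    · apply Filter.Eventually.of_forall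
      intro v
      apply tendsto_nhdsWithin_of_tendsto_nhds
      have : Continuous (fun ε : ℝ =>
          ((D v * Real.exp (-ε * v) * (T * ker (T * (y - v))) : ℝ) : ℂ)) := by fun_prop
      have h2 := this.tendsto 0
      simpa using h2
  have hK : IsCompact ((fun p : ℝ × ℝ => ((1 + p.1 : ℝ) : ℂ) + Complex.I * p.2) ''
      (Icc (0:ℝ) 1 ×ˢ Icc (-T) T)) := by
    apply (isCompact_Icc.prod isCompact_Icc).image
    fun_prop
  have hHK : ContinuousOn H ((fun p : ℝ × ℝ => ((1 + p.1 : ℝ) : ℂ) + Complex.I * p.2) ''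
      (Icc (0:ℝ) 1 ×ˢ Icc (-T) T)) := by
    apply hH.mono
    rintro s ⟨p, hp, rfl⟩
    simp only [Set.mem_ofPred_eq, Complex.add_re, Complex.ofReal_re, Complex.mul_re, Complex.I_re,
      zero_mul, Complex.I_im, Complex.ofReal_im, mul_zero, sub_self, add_zero]
    linarith [hp.1.1]
  obtain ⟨M, hM⟩ := hK.exists_bound_of_continuousOn hHK
  have hr : Tendsto (fun ε : ℝ => ∫ t : ℝ, (tri (t / T) : ℂ) * Complex.exp (Complex.I * t * y) *
      H (1 + ε + Complex.I * t)) (𝓝[>] 0)
      (𝓝 (∫ t : ℝ, (tri (t / T) : ℂ) * Complex.exp (Complex.I * t * y) *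
        H (1 + Complex.I * t))) := by
    apply tendsto_integral_filter_of_dominated_convergence
      (fun t : ℝ => tri (t / T) * M)
    · filter_upwards [self_mem_nhdsWithin] with ε hε
      apply Continuous.aestronglyMeasurable
      have h1 := continuous_tri
      have h2 : Continuous (fun t : ℝ => H (1 + ε + Complex.I * t)) := by
        rw [← continuousOn_univ]
        apply hH.comp
        · fun_prop
        · intro t _
          have : (0:ℝ) < ε := hε
          simp
          linarith
      have h3 : Continuous (fun t : ℝ => (tri (t / T) : ℂ) * Complex.exp (Complex.I * t * y)) := by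
        fun_prop
      exact h3.mul h2
    · have : Ioc (0:ℝ) 1 ∈ 𝓝[>] (0:ℝ) := Ioc_mem_nhdsGT (by norm_num)
      filter_upwards [this] with ε hε
      apply Filter.Eventually.of_forall
      intro t
      rw [norm_mul, norm_mul, Complex.norm_real, Complex.norm_exp,
        Real.norm_of_nonneg (tri_nonneg _)]
      have h3 : (Complex.I * (t : ℂ) * (y : ℂ)).re = 0 := by
        simp
      rw [h3, Real.exp_zero, mul_one]
      by_cases ht : 1 ≤ |t / T|
      · rw [tri_eq_zero ht]
        simp
      · push Not at ht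
        rw [abs_div, abs_of_pos hT, div_lt_one hT, abs_lt] at ht
        apply mul_le_mul_of_nonneg_left _ (tri_nonneg _)
        apply hM
        refine ⟨(ε, t), ⟨⟨hε.1.le, hε.2⟩, ⟨ht.1.le, ht.2.le⟩⟩, ?_⟩
        simp
    · exact (integrable_tri_scale hT).mul_const M
    · apply Filter.Eventually.of_forall
      intro t
      apply Tendsto.const_mul
      have h1 : ContinuousWithinAt H {s | 1 ≤ s.re} (1 + Complex.I * t) := hH _ (by simp)
      have h2 : Tendsto (fun ε : ℝ => (1 + ε + Complex.I * t : ℂ)) (𝓝[>] 0)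
          (𝓝[{s | 1 ≤ s.re}] (1 + Complex.I * t)) := by
        apply tendsto_nhdsWithin_of_tendsto_nhds_of_eventually_within
        · apply tendsto_nhdsWithin_of_tendsto_nhds
          have : Continuous (fun ε : ℝ => (1 + ε + Complex.I * t : ℂ)) := by fun_prop
          have h3 := this.tendsto 0
          simpa using h3
        · filter_upwards [self_mem_nhdsWithin] with ε hε
          have : (0:ℝ) < ε := hε
          simp
          linarith
      exact h1.tendsto.comp h2
  have heq : ∀ᶠ ε : ℝ in 𝓝[>] 0, ∫ v in Ioi (0:ℝ),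
      ((D v * Real.exp (-ε * v) * (T * ker (T * (y - v))) : ℝ) : ℂ) =
      ∫ t : ℝ, (tri (t / T) : ℂ) * Complex.exp (Complex.I * t * y) *
      H (1 + ε + Complex.I * t) := by
    filter_upwards [self_mem_nhdsWithin] with ε hε
    rw [fejer_identity hD hC hε hT y]
    congr 1
    ext t
    congr 1
    rw [← hDH (1 + ε + Complex.I * t)]
    · congr 1
      ext v
      congr 2
      ring
    · have : (0:ℝ) < ε := hε
      simp
      linarith
  have hl2 := hl.congr' heq
  exact tendsto_nhds_unique hl2 hr

lemma riemann_lebesgue {H : ℂ → ℂ} {T : ℝ} :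
    Tendsto (fun y : ℝ => ∫ t : ℝ, (tri (t / T) : ℂ) * Complex.exp (Complex.I * t * y) *
      H (1 + Complex.I * t)) atTop (𝓝 0) := by
  have h := Real.tendsto_integral_exp_smul_cocompact
    (fun t : ℝ => (tri (t / T) : ℂ) * H (1 + Complex.I * t))
  have h2 : Tendsto (fun y : ℝ => -(y / (2 * Real.pi))) atTop (cocompact ℝ) := by
    have h3 : Tendsto (fun y : ℝ => -(y / (2 * Real.pi))) atTop atBot := by
      apply tendsto_neg_atTop_atBot.comp
      apply tendsto_id.atTop_div_const
      positivity
    exact h3.mono_right atBot_le_cocompact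
  refine (h.comp h2).congr ?_
  intro y
  simp only [Function.comp]
  congr 1
  ext t
  rw [Circle.smul_def, Real.fourierChar_apply, smul_eq_mul]
  have : Complex.exp (↑(2 * Real.pi * -(t * -(y / (2 * Real.pi)))) * Complex.I) =
      Complex.exp (Complex.I * t * y) := by
    congr 1
    push_cast
    have : (Real.pi : ℂ) ≠ 0 := by exact_mod_cast Real.pi_ne_zero
    field_simp
  rw [this]
  ring

end Pool.Agent.Lib.PNT
end

section

set_option autoImplicit false

namespace Pool.Agent.Lib.PNT

open MeasureTheory Filter Topology Set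

lemma window {T : ℝ} (hT : 0 < T) (y δ : ℝ) :
    ∫ v in (y - δ)..(y + δ), T * ker (T * (y - v)) = ∫ u in (-(T * δ))..(T * δ), ker u := by
  have h := intervalIntegral.integral_comp_sub_mul (a := y - δ) (b := y + δ)
    (fun u => ker u) hT.ne' (T * y)
  rw [intervalIntegral.integral_const_mul]
  have h1 : ∀ v : ℝ, T * (y - v) = T * y - T * v := fun v => by ring
  simp_rw [h1]
  rw [h, smul_eq_mul]
  have h2 : T * y - T * (y + δ) = -(T * δ) := by ring
  have h3 : T * y - T * (y - δ) = T * δ := by ring
  rw [h2, h3]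
  field_simp

lemma window_le {B : ℝ → ℝ} (hB : Measurable B) {C : ℝ} (hB0 : ∀ v, 0 < v → 0 ≤ B v)
    (hC : ∀ v, 0 < v → B v ≤ C)
    (hmono : ∀ v w, 0 < v → v ≤ w → B v * Real.exp v ≤ B w * Real.exp w)
    {T δ y : ℝ} (hT : 0 < T) (hδ : 0 < δ) (hy : δ < y) :
    B (y - δ) * Real.exp (-(2 * δ)) * ∫ u in (-(T * δ))..(T * δ), ker u ≤
      ∫ v in Ioi (0:ℝ), B v * (T * ker (T * (y - v))) := by
  have hint : IntegrableOn (fun v => B v * (T * ker (T * (y - v)))) (Ioi 0) := by
    apply Integrable.mono' ((integrable_ker_scale hT y).const_mul C).integrableOn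
    · apply Measurable.aestronglyMeasurable
      have := measurable_ker
      fun_prop
    · filter_upwards [ae_restrict_mem measurableSet_Ioi] with v hv
      have h1 := mul_nonneg hT.le (ker_nonneg (T * (y - v)))
      rw [norm_mul, Real.norm_of_nonneg (hB0 v hv), Real.norm_of_nonneg h1]
      exact mul_le_mul_of_nonneg_right (hC v hv) h1
  rw [← window hT y δ, ← intervalIntegral.integral_const_mul,
    intervalIntegral.integral_of_le (by linarith)]
  have hsub : Ioc (y - δ) (y + δ) ⊆ Ioi (0:ℝ) := by
    intro v hv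
    have := hv.1
    simp only [mem_Ioi]
    linarith
  refine le_trans ?_ (setIntegral_mono_set hint ?_ (LE.le.eventuallyLE hsub))
  · apply setIntegral_mono_on
    · exact ((integrable_ker_scale hT y).const_mul _).integrableOn
    · exact hint.mono_set hsub
    · exact measurableSet_Ioc
    · intro v hv
      apply mul_le_mul_of_nonneg_right _ (mul_nonneg hT.le (ker_nonneg _))
      have h1 := hmono (y - δ) v (by linarith) hv.1.le
      have h2 : B (y - δ) * Real.exp (y - δ - v) ≤ B v := by
        have h3 : Real.exp (y - δ - v) = Real.exp (y - δ) * (Real.exp v)⁻¹ := by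
          rw [← Real.exp_neg, ← Real.exp_add]
          congr 1
        rw [h3, ← mul_assoc, ← div_eq_mul_inv, div_le_iff₀ (Real.exp_pos v)]
        exact h1
      refine le_trans ?_ h2
      apply mul_le_mul_of_nonneg_left _ (hB0 _ (by linarith))
      apply Real.exp_le_exp.mpr
      linarith [hv.2]
  · filter_upwards [ae_restrict_mem measurableSet_Ioi] with v hv
    exact mul_nonneg (hB0 v hv) (mul_nonneg hT.le (ker_nonneg _))

lemma le_window {B : ℝ → ℝ} (hB : Measurable B) {C : ℝ} (hB0 : ∀ v, 0 < v → 0 ≤ B v)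
    (hC : ∀ v, 0 < v → B v ≤ C)
    (hmono : ∀ v w, 0 < v → v ≤ w → B v * Real.exp v ≤ B w * Real.exp w)
    {T δ y : ℝ} (hT : 0 < T) (hδ : 0 < δ) (hy : δ < y) :
    ∫ v in Ioi (0:ℝ), B v * (T * ker (T * (y - v))) ≤
      B (y + δ) * Real.exp (2 * δ) * (∫ u : ℝ, ker u) +
        C * ((∫ u : ℝ, ker u) - ∫ u in (-(T * δ))..(T * δ), ker u) := by
  have hC0 : 0 ≤ C := (hB0 1 one_pos).trans (hC 1 one_pos)
  have hBy : 0 ≤ B (y + δ) := hB0 _ (by linarith)
  have hint : IntegrableOn (fun v => B v * (T * ker (T * (y - v)))) (Ioi 0) := by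
    apply Integrable.mono' ((integrable_ker_scale hT y).const_mul C).integrableOn
    · apply Measurable.aestronglyMeasurable
      have := measurable_ker
      fun_prop
    · filter_upwards [ae_restrict_mem measurableSet_Ioi] with v hv
      have h1 := mul_nonneg hT.le (ker_nonneg (T * (y - v)))
      rw [norm_mul, Real.norm_of_nonneg (hB0 v hv), Real.norm_of_nonneg h1]
      exact mul_le_mul_of_nonneg_right (hC v hv) h1
  set k : ℝ → ℝ := fun v => T * ker (T * (y - v)) with hk
  have hkint : Integrable k := integrable_ker_scale hT y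
  have hk0 : ∀ v, 0 ≤ k v := fun v => mul_nonneg hT.le (ker_nonneg _)
  have hI1 : Integrable (fun v => k v - (Ioc (y - δ) (y + δ)).indicator k v) :=
    hkint.sub (hkint.indicator measurableSet_Ioc)
  have hG : Integrable (fun v => B (y + δ) * Real.exp (2 * δ) * k v +
      C * (k v - (Ioc (y - δ) (y + δ)).indicator k v)) := by
    apply Integrable.add (hkint.const_mul _)
    exact hI1.const_mul C
  have hval : ∫ v, (B (y + δ) * Real.exp (2 * δ) * k v +
      C * (k v - (Ioc (y - δ) (y + δ)).indicator k v)) =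
      B (y + δ) * Real.exp (2 * δ) * (∫ u : ℝ, ker u) +
        C * ((∫ u : ℝ, ker u) - ∫ u in (-(T * δ))..(T * δ), ker u) := by
    have e1 : ∫ v, B (y + δ) * Real.exp (2 * δ) * k v =
        B (y + δ) * Real.exp (2 * δ) * (∫ u : ℝ, ker u) := by
      rw [integral_const_mul (B (y + δ) * Real.exp (2 * δ)) k, integral_ker_scale hT y]
    have e2 : ∫ v, C * (k v - (Ioc (y - δ) (y + δ)).indicator k v) =
        C * ((∫ u : ℝ, ker u) - ∫ u in (-(T * δ))..(T * δ), ker u) := by
      rw [integral_const_mul C (fun v => k v - (Ioc (y - δ) (y + δ)).indicator k v),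
        integral_sub hkint (hkint.indicator measurableSet_Ioc),
        integral_indicator measurableSet_Ioc, ← window hT y δ,
        intervalIntegral.integral_of_le (by linarith), integral_ker_scale hT y]
    rw [integral_add (hkint.const_mul _) (hI1.const_mul C), e1, e2]
  rw [← hval]
  have hG0 : ∀ v, 0 ≤ B (y + δ) * Real.exp (2 * δ) * k v +
      C * (k v - (Ioc (y - δ) (y + δ)).indicator k v) := by
    intro v
    have h1 : (Ioc (y - δ) (y + δ)).indicator k v ≤ k v :=
      indicator_le_self' (fun _ _ => hk0 v) v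
    have h2 := hk0 v
    have h3 := Real.exp_pos (2 * δ)
    have h4 : 0 ≤ k v - (Ioc (y - δ) (y + δ)).indicator k v := by linarith
    positivity
  refine le_trans (b := ∫ v in Ioi (0:ℝ), (B (y + δ) * Real.exp (2 * δ) * k v +
      C * (k v - (Ioc (y - δ) (y + δ)).indicator k v))) ?_
      (setIntegral_le_integral hG (Filter.Eventually.of_forall hG0))
  apply setIntegral_mono_on hint hG.integrableOn measurableSet_Ioi
  intro v hv
  by_cases hvI : v ∈ Ioc (y - δ) (y + δ)
  · rw [indicator_of_mem hvI]
    simp only [sub_self, mul_zero, add_zero]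
    apply mul_le_mul_of_nonneg_right _ (hk0 v)
    have h1 := hmono v (y + δ) hv hvI.2
    have h2 : B v ≤ B (y + δ) * Real.exp (y + δ - v) := by
      have h3 : Real.exp (y + δ - v) = Real.exp (y + δ) * (Real.exp v)⁻¹ := by
        rw [← Real.exp_neg, ← Real.exp_add]
        congr 1
      rw [h3, ← mul_assoc, ← div_eq_mul_inv, le_div_iff₀ (Real.exp_pos v)]
      exact h1
    refine h2.trans ?_
    apply mul_le_mul_of_nonneg_left _ hBy
    apply Real.exp_le_exp.mpr
    linarith [hvI.1]
  · rw [indicator_of_notMem hvI]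
    have h1 := hk0 v
    have h3 := Real.exp_pos (2 * δ)
    have h4 : B v * k v ≤ C * k v := mul_le_mul_of_nonneg_right (hC v hv) h1
    have h5 : 0 ≤ B (y + δ) * Real.exp (2 * δ) * k v := by positivity
    simp only [sub_zero]
    linarith

lemma tendsto_window :
    Tendsto (fun n : ℕ => ∫ u in (-(n:ℝ))..(n:ℝ), ker u) atTop (𝓝 (∫ u : ℝ, ker u)) := by
  apply intervalIntegral_tendsto_integral integrable_ker
  · exact tendsto_neg_atTop_atBot.comp tendsto_natCast_atTop_atTop
  · exact tendsto_natCast_atTop_atTop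

/-- Tauberian theorem for the Fejer kernel. -/
theorem tauber {B : ℝ → ℝ} (hB : Measurable B) {C A : ℝ} (hB0 : ∀ v, 0 < v → 0 ≤ B v)
    (hC : ∀ v, 0 < v → B v ≤ C)
    (hmono : ∀ v w, 0 < v → v ≤ w → B v * Real.exp v ≤ B w * Real.exp w)
    (hlim : ∀ T : ℝ, 0 < T → Tendsto (fun y => ∫ v in Ioi (0:ℝ), B v * (T * ker (T * (y - v))))
      atTop (𝓝 (A * ∫ u : ℝ, ker u))) :
    Tendsto B atTop (𝓝 A) := by
  have hI := integral_ker_pos
  set I := ∫ u : ℝ, ker u with hIdef
  set J : ℕ → ℝ := fun n => ∫ u in (-(n:ℝ))..(n:ℝ), ker u with hJ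
  have hJlim : Tendsto J atTop (𝓝 I) := tendsto_window
  have h1n : Tendsto (fun n : ℕ => (1:ℝ) / n) atTop (𝓝 0) :=
    tendsto_one_div_atTop_nhds_zero_nat
  -- scale: T = n^2, δ = 1/n
  have hwin : ∀ n : ℕ, 0 < n → ∫ u in (-((n:ℝ) ^ 2 * (1 / n)))..((n:ℝ) ^ 2 * (1 / n)), ker u =
      J n := by
    intro n hn
    have : (n:ℝ) ^ 2 * (1 / n) = n := by
      have : (n:ℝ) ≠ 0 := by positivity
      field_simp
    rw [this]
  rw [tendsto_order]
  constructor
  · intro a ha
    -- lower bound
    have h1 : Tendsto (fun n : ℕ => Real.exp (-(2 * ((1:ℝ) / n))) * (A * I - C * (I - J n)) / I)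
        atTop (𝓝 (Real.exp (-(2 * 0)) * (A * I - C * (I - I)) / I)) := by
      apply Tendsto.div_const
      apply Tendsto.mul
      · exact (Real.continuous_exp.tendsto _).comp ((h1n.const_mul 2).neg)
      · exact tendsto_const_nhds.sub ((tendsto_const_nhds.sub hJlim).const_mul C)
    have h2 : Real.exp (-(2 * 0)) * (A * I - C * (I - I)) / I = A := by
      simp
      field_simp
    rw [h2] at h1
    obtain ⟨n, hn, hn0⟩ := ((h1.eventually (lt_mem_nhds ha)).and (eventually_gt_atTop 0)).exists
    have hn' : (0:ℝ) < n := by exact_mod_cast hn0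
    have hT : (0:ℝ) < (n:ℝ) ^ 2 := by positivity
    have hδ : (0:ℝ) < 1 / n := by positivity
    have h3 := ((((hlim _ hT).sub_const (C * (I - J n))).const_mul
      (Real.exp (-(2 * ((1:ℝ) / n))))).div_const I).eventually (lt_mem_nhds hn)
    have h4 : ∀ᶠ y : ℝ in atTop, a < B (y + 1 / n) := by
      filter_upwards [h3, eventually_gt_atTop (1 / (n:ℝ))] with y hy hy2
      have h5 := le_window hB hB0 hC hmono hT hδ hy2
      rw [hwin n hn0, ← hIdef] at h5
      refine hy.trans_le ?_
      rw [div_le_iff₀ hI]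
      have h6 : (∫ v in Ioi (0:ℝ), B v * ((n:ℝ) ^ 2 * ker ((n:ℝ) ^ 2 * (y - v)))) -
          C * (I - J n) ≤ B (y + 1 / n) * Real.exp (2 * (1 / n)) * I := by linarith
      calc Real.exp (-(2 * (1 / (n:ℝ)))) * ((∫ v in Ioi (0:ℝ), B v * ((n:ℝ) ^ 2 *
            ker ((n:ℝ) ^ 2 * (y - v)))) - C * (I - J n))
          ≤ Real.exp (-(2 * (1 / (n:ℝ)))) * (B (y + 1 / n) * Real.exp (2 * (1 / n)) * I) :=
            mul_le_mul_of_nonneg_left h6 (Real.exp_pos _).le
        _ = B (y + 1 / n) * I * (Real.exp (-(2 * (1 / (n:ℝ)))) * Real.exp (2 * (1 / n))) := by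
            ring
        _ = B (y + 1 / n) * I := by
            rw [← Real.exp_add]
            simp
    rw [eventually_atTop] at h4 ⊢
    obtain ⟨b, hb⟩ := h4
    refine ⟨b + 1 / n, fun x hx => ?_⟩
    have := hb (x - 1 / n) (by linarith)
    simpa using this
  · intro a ha
    have h1 : Tendsto (fun n : ℕ => Real.exp (2 * ((1:ℝ) / n)) * (A * I) / J n)
        atTop (𝓝 (Real.exp (2 * 0) * (A * I) / I)) := by
      apply Tendsto.div _ hJlim hI.ne'
      apply Tendsto.mul_const
      exact (Real.continuous_exp.tendsto _).comp (h1n.const_mul 2)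
    have h2 : Real.exp (2 * 0) * (A * I) / I = A := by
      simp
      field_simp
    rw [h2] at h1
    obtain ⟨n, ⟨hn, hJn⟩, hn0⟩ := (((h1.eventually (gt_mem_nhds ha)).and
      (hJlim.eventually (lt_mem_nhds hI))).and (eventually_gt_atTop 0)).exists
    have hn' : (0:ℝ) < n := by exact_mod_cast hn0
    have hT : (0:ℝ) < (n:ℝ) ^ 2 := by positivity
    have hδ : (0:ℝ) < 1 / n := by positivity
    have h3 := (((hlim _ hT).const_mul
      (Real.exp (2 * ((1:ℝ) / n)))).div_const (J n)).eventually (gt_mem_nhds hn)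
    have h4 : ∀ᶠ y : ℝ in atTop, B (y - 1 / n) < a := by
      filter_upwards [h3, eventually_gt_atTop (1 / (n:ℝ))] with y hy hy2
      have h5 := window_le hB hB0 hC hmono hT hδ hy2
      rw [hwin n hn0] at h5
      refine lt_of_le_of_lt ?_ hy
      rw [le_div_iff₀ hJn]
      calc B (y - 1 / n) * J n = Real.exp (2 * (1 / (n:ℝ))) * (B (y - 1 / n) *
            Real.exp (-(2 * (1 / n))) * J n) := by
            have : Real.exp (2 * (1 / (n:ℝ))) * Real.exp (-(2 * (1 / (n:ℝ)))) = 1 := by
              rw [← Real.exp_add]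
              simp
            linear_combination (-(B (y - 1 / n) * J n)) * this
        _ ≤ _ := mul_le_mul_of_nonneg_left h5 (Real.exp_pos _).le
    rw [eventually_atTop] at h4 ⊢
    obtain ⟨b, hb⟩ := h4
    refine ⟨b, fun x hx => ?_⟩
    have := hb (x + 1 / n) (by linarith)
    simpa using this

end Pool.Agent.Lib.PNT
end

section

set_option autoImplicit false

namespace Pool.Agent.Lib.PNT

open MeasureTheory Filter Topology Set

lemma tendsto_half_line {T : ℝ} (hT : 0 < T) :
    Tendsto (fun y : ℝ => ∫ v in Ioi (0:ℝ), T * ker (T * (y - v))) atTop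
      (𝓝 (∫ u : ℝ, ker u)) := by
  have h1 : Tendsto (fun y : ℝ => ∫ u in (-(T * (y / 2)))..(T * (y / 2)), ker u) atTop
      (𝓝 (∫ u : ℝ, ker u)) := by
    have h2 : Tendsto (fun y : ℝ => T * (y / 2)) atTop atTop :=
      (tendsto_id.atTop_div_const (by norm_num)).const_mul_atTop hT
    apply intervalIntegral_tendsto_integral integrable_ker
    · exact tendsto_neg_atTop_atBot.comp h2
    · exact h2
  refine tendsto_of_tendsto_of_tendsto_of_le_of_le' h1 tendsto_const_nhds ?_ ?_
  · filter_upwards [eventually_gt_atTop (0:ℝ)] with y hy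
    rw [← window hT y (y / 2), intervalIntegral.integral_of_le (by linarith)]
    apply setIntegral_mono_set (integrable_ker_scale hT y).integrableOn
    · exact Filter.Eventually.of_forall fun v => mul_nonneg hT.le (ker_nonneg _)
    · apply LE.le.eventuallyLE
      intro v hv
      have := hv.1
      simp only [mem_Ioi]
      linarith
  · apply Filter.Eventually.of_forall
    intro y
    rw [← integral_ker_scale hT y]
    exact setIntegral_le_integral (integrable_ker_scale hT y)
      (Filter.Eventually.of_forall fun v => mul_nonneg hT.le (ker_nonneg _))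

/-- partial sums -/
noncomputable def psum (f : ℕ → ℝ) (x : ℝ) : ℝ := ∑ k ∈ Finset.Icc 1 ⌊x⌋₊, f k

lemma psum_mono {f : ℕ → ℝ} (hf : ∀ n, 0 ≤ f n) : Monotone (psum f) := by
  intro x y hxy
  unfold psum
  apply Finset.sum_le_sum_of_subset_of_nonneg
  · apply Finset.Icc_subset_Icc_right
    exact Nat.floor_mono hxy
  · intro i _ _
    exact hf i

lemma psum_nonneg {f : ℕ → ℝ} (hf : ∀ n, 0 ≤ f n) (x : ℝ) : 0 ≤ psum f x :=
  Finset.sum_nonneg fun i _ => hf i

theorem wiener_ikehara (f : ℕ → ℝ) (hf : ∀ n, 0 ≤ f n) {C A : ℝ}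
    (hC : ∀ n : ℕ, ∑ k ∈ Finset.Icc 1 n, f k ≤ C * n) {G : ℂ → ℂ}
    (hG : ContinuousOn G {s | 1 ≤ s.re})
    (hGf : ∀ s : ℂ, 1 < s.re → LSeries (fun n => (f n : ℂ)) s = G s + A / (s - 1)) :
    Tendsto (fun x : ℝ => (∑ k ∈ Finset.Icc 1 ⌊x⌋₊, f k) / x) atTop (𝓝 A) := by
  have hC0 : 0 ≤ C := by
    have := hC 1
    simp only [Finset.Icc_self, Finset.sum_singleton, Nat.cast_one, mul_one] at this
    exact (hf 1).trans this
  set B : ℝ → ℝ := fun v => psum f (Real.exp v) * Real.exp (-v) with hBdef
  have hBm : Measurable B := by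
    have := (psum_mono hf).measurable
    fun_prop
  have hB0 : ∀ v, 0 ≤ B v := fun v => mul_nonneg (psum_nonneg hf _) (Real.exp_pos _).le
  have hBC : ∀ v, B v ≤ C := by
    intro v
    have h1 : psum f (Real.exp v) ≤ C * Real.exp v := by
      refine (hC _).trans ?_
      exact mul_le_mul_of_nonneg_left (Nat.floor_le (Real.exp_pos v).le) hC0
    have h2 := Real.exp_pos (-v)
    calc B v ≤ C * Real.exp v * Real.exp (-v) := mul_le_mul_of_nonneg_right h1 h2.le
      _ = C := by
        rw [mul_assoc, ← Real.exp_add]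
        simp
  have hBexp : ∀ v, B v * Real.exp v = psum f (Real.exp v) := by
    intro v
    simp only [hBdef]
    rw [mul_assoc, ← Real.exp_add]
    simp
  have hmono : ∀ v w, 0 < v → v ≤ w → B v * Real.exp v ≤ B w * Real.exp w := by
    intro v w _ hvw
    rw [hBexp, hBexp]
    exact psum_mono hf (Real.exp_le_exp.mpr hvw)
  have hD : Measurable (fun v => B v - A) := hBm.sub_const A
  have hDb : ∀ v, 0 < v → |B v - A| ≤ C + |A| := by
    intro v _
    have h1 := hB0 v
    have h2 := hBC v
    rw [abs_le]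
    constructor
    · have := le_abs_self A
      linarith
    · have := neg_abs_le A
      linarith
  -- the Laplace transform
  have hH : ContinuousOn (fun s : ℂ => (G s - A) / s) {s | 1 ≤ s.re} := by
    apply (hG.sub continuousOn_const).div continuousOn_id
    intro s hs h0
    have h0' : s = 0 := h0
    rw [h0'] at hs
    have : (1:ℝ) ≤ 0 := by simpa using hs
    linarith
  have hDH : ∀ s : ℂ, 1 < s.re →
      ∫ v in Ioi (0:ℝ), ((B v - A : ℝ) : ℂ) * Complex.exp (-(s - 1) * v) = (G s - A) / s := by
    intro s hs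
    have hs1 : 0 < (s - 1).re := by simp; linarith
    have hexpi : IntegrableOn (fun v : ℝ => Real.exp (-(s - 1).re * v)) (Ioi 0) :=
      integrable_exp_neg hs1
    have hnorm : ∀ v : ℝ, ‖Complex.exp (-(s - 1) * v)‖ = Real.exp (-(s - 1).re * v) := by
      intro v
      rw [Complex.norm_exp]
      simp
    have hi1 : IntegrableOn (fun v : ℝ => (B v : ℂ) * Complex.exp (-(s - 1) * v)) (Ioi 0) := by
      apply Integrable.mono' (hexpi.const_mul C)
      · apply Measurable.aestronglyMeasurable
        fun_prop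
      · apply Filter.Eventually.of_forall
        intro v
        rw [norm_mul, hnorm, Complex.norm_real, Real.norm_of_nonneg (hB0 v)]
        exact mul_le_mul_of_nonneg_right (hBC v) (Real.exp_pos _).le
    have hi2 : IntegrableOn (fun v : ℝ => (A : ℂ) * Complex.exp (-(s - 1) * v)) (Ioi 0) := by
      apply Integrable.const_mul
      apply Integrable.mono' hexpi
      · apply Measurable.aestronglyMeasurable
        fun_prop
      · apply Filter.Eventually.of_forall
        intro v
        rw [hnorm]
    have e1 : ∫ v in Ioi (0:ℝ), (A : ℂ) * Complex.exp (-(s - 1) * v) = A / (s - 1) := by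
      rw [integral_const_mul, integral_exp_mul_complex_Ioi (by simp; linarith)]
      simp only [Complex.ofReal_zero, mul_zero, Complex.exp_zero]
      rw [neg_div_neg_eq]
      ring
    have hO : (fun n : ℕ => ∑ k ∈ Finset.Icc 1 n, f k) =O[atTop] fun n : ℕ => (n : ℝ) ^ (1:ℝ) := by
      apply Asymptotics.IsBigO.of_bound C
      apply Filter.Eventually.of_forall
      intro n
      rw [Real.rpow_one, Real.norm_of_nonneg (Finset.sum_nonneg fun i _ => hf i),
        Real.norm_of_nonneg (Nat.cast_nonneg n)]
      exact hC n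
    have e2 := LSeries_eq_mul_integral_of_nonneg f (r := 1) zero_le_one hs hO hf
    have himg : Real.exp '' Ioi 0 = Ioi 1 := by
      ext t
      constructor
      · rintro ⟨v, hv, rfl⟩
        exact Real.one_lt_exp_iff.mpr hv
      · intro ht
        have ht' : (1:ℝ) < t := ht
        exact ⟨Real.log t, Real.log_pos ht', Real.exp_log (by linarith)⟩
    have e3 : ∫ t in Ioi (1:ℝ), (∑ k ∈ Finset.Icc 1 ⌊t⌋₊, (f k : ℂ)) * (t : ℂ) ^ (-(s + 1)) =
        ∫ v in Ioi (0:ℝ), (B v : ℂ) * Complex.exp (-(s - 1) * v) := by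
      rw [← himg, integral_image_eq_integral_abs_deriv_smul measurableSet_Ioi
        (fun x _ => (Real.hasDerivAt_exp x).hasDerivWithinAt) Real.exp_injective.injOn]
      congr 1
      ext v
      have h1 : (∑ k ∈ Finset.Icc 1 ⌊Real.exp v⌋₊, (f k : ℂ)) = ((B v * Real.exp v : ℝ) : ℂ) := by
        rw [hBexp]
        unfold psum
        push_cast
        rfl
      rw [h1, abs_of_pos (Real.exp_pos v), Complex.real_smul]
      have h2 : ((Real.exp v : ℝ) : ℂ) ^ (-(s + 1)) = Complex.exp (-(s + 1) * v) := by
        rw [Complex.ofReal_exp, Complex.cpow_def_of_ne_zero (Complex.exp_ne_zero _),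
          Complex.log_exp (by simp [Real.pi_pos]) (by simp [Real.pi_pos.le])]
        congr 1
        ring
      rw [h2]
      have h3 : Complex.exp (-(s - 1) * v) =
          Complex.exp v * Complex.exp v * Complex.exp (-(s + 1) * v) := by
        rw [← Complex.exp_add, ← Complex.exp_add]
        congr 1
        ring
      rw [h3]
      push_cast
      ring
    have hsum : ∀ v : ℝ, ((B v - A : ℝ) : ℂ) * Complex.exp (-(s - 1) * v) =
        (B v : ℂ) * Complex.exp (-(s - 1) * v) - (A : ℂ) * Complex.exp (-(s - 1) * v) := by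
      intro v
      push_cast
      ring
    simp_rw [hsum]
    rw [integral_sub hi1 hi2, e1, ← e3]
    have hs0 : s ≠ 0 := by
      intro h
      rw [h] at hs
      simp at hs
      linarith
    have hs1' : s - 1 ≠ 0 := by
      intro h
      rw [h] at hs1
      simp at hs1
    rw [hGf s hs] at e2
    rw [eq_div_iff hs0]
    field_simp at e2 ⊢
    linear_combination -e2
  have hlimD : ∀ T : ℝ, 0 < T → Tendsto (fun y => ∫ v in Ioi (0:ℝ),
      (B v - A) * (T * ker (T * (y - v)))) atTop (𝓝 0) := by
    intro T hT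
    have h1 := riemann_lebesgue (H := fun s : ℂ => (G s - A) / s) (T := T)
    have h2 : Tendsto (fun y => ((∫ v in Ioi (0:ℝ),
      (B v - A) * (T * ker (T * (y - v))) : ℝ) : ℂ)) atTop (𝓝 0) := by
      refine h1.congr ?_
      intro y
      rw [← limit_identity hD hDb hH hDH hT y]
      rw [integral_complex_ofReal]
    have h3 := (Complex.continuous_re.tendsto _).comp h2
    rw [Complex.zero_re] at h3
    refine h3.congr ?_
    intro y
    simp only [Function.comp, Complex.ofReal_re]
  have hfinal : Tendsto B atTop (𝓝 A) := by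
    apply tauber hBm (fun v _ => hB0 v) (fun v _ => hBC v) hmono
    intro T hT
    have h1 := (hlimD T hT).add ((tendsto_half_line hT).const_mul A)
    rw [zero_add] at h1
    refine h1.congr ?_
    intro y
    rw [← integral_const_mul, ← integral_add]
    · congr 1
      ext v
      ring
    · apply Integrable.mono' ((integrable_ker_scale hT y).const_mul (C + |A|)).integrableOn
      · apply Measurable.aestronglyMeasurable
        have := measurable_ker
        fun_prop
      · filter_upwards [ae_restrict_mem measurableSet_Ioi] with v hv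
        have h1 := mul_nonneg hT.le (ker_nonneg (T * (y - v)))
        rw [norm_mul, Real.norm_eq_abs, Real.norm_of_nonneg h1]
        exact mul_le_mul_of_nonneg_right (hDb v hv) h1
    · exact ((integrable_ker_scale hT y).const_mul A).integrableOn
  have h4 := hfinal.comp Real.tendsto_log_atTop
  refine h4.congr' ?_
  filter_upwards [eventually_gt_atTop (0:ℝ)] with x hx
  simp only [Function.comp, hBdef]
  rw [Real.exp_neg, Real.exp_log hx]
  rfl

end Pool.Agent.Lib.PNT
end

section

set_option autoImplicit false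

namespace Pool.Agent.Lib.PNT

open MeasureTheory Filter Topology Set ArithmeticFunction Chebyshev

/-- The prime number theorem for arithmetic progressions, von Mangoldt form. -/
theorem pnt_residueClass {q : ℕ} [NeZero q] {a : ZMod q} (ha : IsUnit a) :
    Tendsto (fun x : ℝ => (∑ k ∈ Finset.Icc 1 ⌊x⌋₊, vonMangoldt.residueClass a k) / x) atTop
      (𝓝 ((q.totient : ℝ)⁻¹)) := by
  apply wiener_ikehara (C := Real.log 4 + 4) _ (vonMangoldt.residueClass_nonneg a) _
    (vonMangoldt.continuousOn_LFunctionResidueClassAux a)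
  · intro s hs
    have := vonMangoldt.eqOn_LFunctionResidueClassAux ha hs
    simp only at this
    rw [this]
    push_cast
    ring
  · intro n
    have h1 : ∑ k ∈ Finset.Icc 1 n, vonMangoldt.residueClass a k ≤ ψ n := by
      rw [psi_eq_sum_Icc, Nat.floor_natCast]
      refine (Finset.sum_le_sum fun k _ => vonMangoldt.residueClass_le a k).trans ?_
      apply Finset.sum_le_sum_of_subset_of_nonneg
      · apply Finset.Icc_subset_Icc_left
        norm_num
      · intro i _ _
        exact vonMangoldt_nonneg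
    exact h1.trans (psi_le_const_mul_self (Nat.cast_nonneg n))

/-- The prime number theorem: ψ(x) ~ x. -/
theorem pnt_psi : Tendsto (fun x : ℝ => ψ x / x) atTop (𝓝 1) := by
  have h := pnt_residueClass (q := 1) (a := 1) isUnit_one
  simp only [Nat.totient_one, Nat.cast_one, inv_one] at h
  refine h.congr ?_
  intro x
  congr 1
  rw [psi_eq_sum_Icc]
  have : Finset.Icc 0 ⌊x⌋₊ = insert 0 (Finset.Icc 1 ⌊x⌋₊) := by
    ext k
    simp only [Finset.mem_Icc, Finset.mem_insert]
    omega
  rw [this, Finset.sum_insert (by simp)]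
  simp only [ArithmeticFunction.map_zero, zero_add]
  apply Finset.sum_congr rfl
  intro k _
  rw [vonMangoldt.residueClass, Set.indicator_of_mem]
  exact Subsingleton.elim _ _

/-- The prime number theorem: θ(x) ~ x. -/
theorem pnt_theta : Tendsto (fun x : ℝ => θ x / x) atTop (𝓝 1) := by
  obtain ⟨C, hC⟩ := psi_sub_theta_le_mul_sqrt
  have h1 : Tendsto (fun x : ℝ => C * (√x / x)) atTop (𝓝 (C * 0)) := by
    apply Tendsto.const_mul
    have h2 : Tendsto (fun x : ℝ => (√x)⁻¹) atTop (𝓝 0) :=
      tendsto_inv_atTop_zero.comp Real.tendsto_sqrt_atTop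
    refine h2.congr' ?_
    filter_upwards [eventually_gt_atTop (0:ℝ)] with x hx
    rw [eq_div_iff hx.ne', inv_mul_eq_iff_eq_mul₀ (Real.sqrt_pos.mpr hx).ne',
      Real.mul_self_sqrt hx.le]
  rw [mul_zero] at h1
  have h3 : Tendsto (fun x : ℝ => (ψ x - θ x) / x) atTop (𝓝 0) := by
    refine squeeze_zero' ?_ ?_ h1
    · filter_upwards [eventually_gt_atTop (0:ℝ)] with x hx
      apply div_nonneg _ hx.le
      have := theta_le_psi x
      linarith
    · filter_upwards [eventually_gt_atTop (0:ℝ)] with x hx
      rw [← mul_div_assoc]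
      apply div_le_div_of_nonneg_right _ hx.le
      exact hC x
  have h4 := pnt_psi.sub h3
  rw [sub_zero] at h4
  refine h4.congr ?_
  intro x
  ring

/-- The prime number theorem: π(x) ~ x / log x. -/
theorem pnt_pi : Tendsto (fun x : ℝ => (Nat.primeCounting ⌊x⌋₊ : ℝ) * Real.log x / x) atTop
    (𝓝 1) := by
  have h1 := primeCounting_sub_theta_div_log_isBigO
  have hlog : Tendsto (fun x : ℝ => (Real.log x)⁻¹) atTop (𝓝 0) :=
    tendsto_inv_atTop_zero.comp Real.tendsto_log_atTop
  obtain ⟨C, hC⟩ := h1.bound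
  have h2 : Tendsto (fun x : ℝ => ((Nat.primeCounting ⌊x⌋₊ : ℝ) - θ x / Real.log x) *
      (Real.log x / x)) atTop (𝓝 0) := by
    rw [tendsto_zero_iff_norm_tendsto_zero]
    have h3 : Tendsto (fun x : ℝ => C * (Real.log x)⁻¹) atTop (𝓝 0) := by
      simpa using hlog.const_mul C
    refine squeeze_zero' (Filter.Eventually.of_forall fun x => norm_nonneg _) ?_ h3
    filter_upwards [hC, eventually_gt_atTop (1:ℝ)] with x hx hx1
    have hl : 0 < Real.log x := Real.log_pos hx1
    have hx0 : 0 < x := by linarith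
    rw [norm_mul, Real.norm_of_nonneg (div_pos hl hx0).le]
    refine (mul_le_mul_of_nonneg_right hx (div_pos hl hx0).le).trans ?_
    rw [Real.norm_of_nonneg (by positivity)]
    apply le_of_eq
    field_simp
  have h4 := pnt_theta.add h2
  rw [add_zero] at h4
  refine h4.congr' ?_
  filter_upwards [eventually_gt_atTop (1:ℝ)] with x hx1
  have hl : 0 < Real.log x := Real.log_pos hx1
  have hx0 : 0 < x := by linarith
  field_simp
  ring

end Pool.Agent.Lib.PNT
end
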